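import Pool.Agent.H759.PTB.Weak

/-!
# Growth of the Turaev-Viro invariants of all hyperbolic once-punctured torus bundles

`TV N w` is the Turaev-Viro invariant `TV_r`, `r = 2N+1`, at `A = e^{πi/r}` of the once-punctured
torus bundles with monodromy `±w` (the sum of the squares of the traces of the quantum
representations of the one-holed torus). Every hyperbolic monodromy is conjugate to `±w` for a word
`w` in `L` and `R` which contains both letters.

For every such word there is a constant `C` such that, for `n ≥ 1` and `x ≥ C n`, at most
`C n² / x` of the numbers `N` in `[x, 2x)` satisfy `TV N w < 2^n`. In particular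
* `TV_r ≥ exp (c √r)` for all large `r`, with `c > 0`;
* for `n = ε x`: `TV_r ≥ exp (c ε r)` outside a set of levels of upper density `O(ε²)`, so the
  invariants grow exponentially along a set of levels of density arbitrarily close to one.

Proof. In the basis of the companion results the matrices of `L` and `R` on the `n`-dimensional
representation (boundary colour `b = N - n`) are, up to a gauge, values at `t = 1/r` of matrices
`M_L(t)`, `M_R(t)` which are analytic for `|t| < 1/(50 n)` and have entries
`(binomial coefficient) × exp (O (n² |t|))`; for `t = 0` they are the `(n-1)`-st symmetric powers of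
the matrices `L` and `R`. So the trace `f_n(t)` satisfies `f_n(0) ≥ 2^(n-1)` and
`|f_n(t)| ≤ f_n(0) exp (O (n² |t|))`. By Hermite's interpolation formula such a function cannot be
much smaller than `f_n(0)` at more than `O(n²/x)` of the numbers `1/(2N+1)`, `x ≤ N < 2x`.
-/

set_option autoImplicit false

namespace Pool.Agent.H759.Old.GrowthAtMostLevels

open Pool.Agent.H759.PTB

theorem result (w : List Letter) (hw : ∀ x ∈ w, x = Letter.L ∨ x = Letter.R)
    (hL : Letter.L ∈ w) (hR : Letter.R ∈ w) :
    ∃ C : ℝ, 0 < C ∧ ∀ x n : ℕ, 1 ≤ n → C * n ≤ x →
      (((Finset.Ico x (2 * x)).filter (fun N => TV N w < 2 ^ n)).card : ℝ) ≤ C * n ^ 2 / x := by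
  refine ⟨2 * 10 ^ 12 * (w.length : ℝ) ^ 2, ?_, fun x n hn hx => growth_count hw hL hR hn hx⟩
  have : 0 < w.length := List.length_pos_of_mem hL
  positivity

end Pool.Agent.H759.Old.GrowthAtMostLevels
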